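import Mathlib

namespace Pool.Agent.H.MP_f6b738_gt

open Set Metric MeasureTheory Pointwise
open scoped RealInnerProductSpace NNReal

variable {E W : Type*} [NormedAddCommGroup E] [InnerProductSpace ℝ E] [FiniteDimensional ℝ E]
  [NormedAddCommGroup W] [InnerProductSpace ℝ W] [FiniteDimensional ℝ W]

noncomputable def nr (y : E) : E := ‖y‖⁻¹ • y

noncomputable def Nm (N : E → E) (y : E) : E := ‖y‖ • N (nr y)

structure Sup (h : E → ℝ) (N : E → E) : Prop where
  hom : ∀ t : ℝ, 0 < t → ∀ y, h (t • y) = t * h y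
  der : ∀ y, y ≠ 0 → HasFDerivAt h (innerSL ℝ (nr y + N (nr y))) y
  lip : ∃ C : ℝ≥0, C < 1 ∧ LipschitzWith C (Nm N)

def body (h : E → ℝ) : Set E := {x | ∀ v, ⟪x, v⟫ ≤ h v}

omit [FiniteDimensional ℝ E] in
theorem nr_unit {v : E} (hv : ‖v‖ = 1) : nr v = v := by simp [nr, hv]

omit [FiniteDimensional ℝ E] in
theorem nr_smul {t : ℝ} (ht : 0 < t) (y : E) : nr (t • y) = nr y := by
  rw [nr, nr, norm_smul, Real.norm_of_nonneg ht.le, smul_smul, mul_inv, mul_right_comm,
    inv_mul_cancel₀ ht.ne', one_mul]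

omit [FiniteDimensional ℝ E] in
theorem norm_nr {y : E} (hy : y ≠ 0) : ‖nr y‖ = 1 := norm_smul_inv_norm hy

omit [FiniteDimensional ℝ E] in
theorem smul_nr (y : E) : ‖y‖ • nr y = y := by
  rcases eq_or_ne y 0 with rfl | hy
  · simp
  · rw [nr, smul_smul, mul_inv_cancel₀ (norm_ne_zero_iff.2 hy), one_smul]

omit [FiniteDimensional ℝ E] in
theorem Nm_smul (N : E → E) {t : ℝ} (ht : 0 ≤ t) {v : E} (hv : ‖v‖ = 1) :
    Nm N (t • v) = t • N v := by
  rcases ht.eq_or_lt with rfl | ht
  · simp [Nm]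
  · rw [Nm, nr_smul ht, nr_unit hv, norm_smul, hv, mul_one, Real.norm_of_nonneg ht.le]

omit [FiniteDimensional ℝ E] in
theorem inj {N : E → E} {C : ℝ≥0} (hC : C < 1) (hl : LipschitzWith C (Nm N)) {r : ℝ}
    (hr : 0 ≤ r) : Function.Injective fun y => y + Nm N y + r • y := by
  intro x y h
  have e : (1 + r) • (x - y) = Nm N y - Nm N x := by
    simp only at h
    linear_combination (norm := module) h
  have h1 := hl.dist_le_mul y x
  rw [dist_eq_norm, dist_eq_norm, ← e, norm_smul, Real.norm_of_nonneg (by linarith),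
    norm_sub_rev y x] at h1
  have hC' : (C : ℝ) < 1 := hC
  by_contra hne
  have := norm_pos_iff.2 (sub_ne_zero.2 hne)
  nlinarith

namespace Sup

variable {h : E → ℝ} {N : E → E}

omit [FiniteDimensional ℝ E] in
theorem zero (H : Sup h N) : h 0 = 0 := by
  have := H.hom 2 two_pos 0
  rw [smul_zero] at this
  linarith

omit [FiniteDimensional ℝ E] in
theorem bd (H : Sup h N) {v : E} (hv : ‖v‖ = 1) : |h v - 1| < 1 := by
  have hv0 : v ≠ 0 := by
    rintro rfl
    simp at hv
  obtain ⟨C, hC, hl⟩ := H.lip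
  have h1 : HasDerivAt (fun t : ℝ => h (t • v)) ⟪nr v + N (nr v), v⟫ 1 := by
    have := (H.der v hv0).comp_hasDerivAt_of_eq (1 : ℝ) ((hasDerivAt_id (1 : ℝ)).smul_const v)
      (by simp)
    simpa [Function.comp_def, inner_add_left] using this
  have h2 : HasDerivAt (fun t : ℝ => h (t • v)) (h v) 1 := by
    refine (hasDerivAt_mul_const (h v)).congr_of_eventuallyEq ?_
    filter_upwards [lt_mem_nhds one_pos] with t ht using H.hom t ht v
  have h3 := hl.dist_le_mul (1 • v) 0
  have h4 : Nm N 0 = 0 := by simp [Nm]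
  have h5 := Nm_smul N zero_le_one hv
  simp only [one_smul] at h3 h5
  rw [h4, h5, dist_zero_right, dist_zero_right, hv, mul_one] at h3
  rw [h2.unique h1, nr_unit hv, inner_add_left, real_inner_self_eq_norm_sq, hv]
  have := abs_real_inner_le_norm (N v) v
  have hC' : (C : ℝ) < 1 := hC
  rw [hv] at this
  simp only [one_pow, add_sub_cancel_left]
  linarith

omit [FiniteDimensional ℝ E] in
theorem eq_nr (H : Sup h N) {w : E} (hw : w ≠ 0) : h w = ‖w‖ * h (nr w) := by
  rw [← H.hom _ (norm_pos_iff.2 hw), smul_nr]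

theorem key [Nontrivial E] (H : Sup h N) {r : ℝ} (hr : 0 ≤ r) (x : E) :
    ∃ l : ℝ, 0 ≤ l ∧ ∃ v : E, ‖v‖ = 1 ∧ x = l • v + Nm N (l • v) + r • l • v ∧
      ⟪x, v⟫ = l * (h v + r) ∧ ∀ w, ⟪x, w⟫ ≤ l * (h w + r * ‖w‖) := by
  have pos : ∀ v : E, ‖v‖ = 1 → 0 < h v + r := fun v hv => by
    linarith [(abs_lt.1 (H.bd hv)).1]
  have ne : ∀ v : E, ‖v‖ = 1 → v ≠ 0 := by
    rintro v hv rfl
    simp at hv
  obtain ⟨v, hv, hm⟩ := (isCompact_sphere (0 : E) 1).exists_isMaxOn
    (NormedSpace.sphere_nonempty.2 zero_le_one) (f := fun v => ⟪x, v⟫ / (h v + r))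
    (ContinuousOn.div (by fun_prop) (ContinuousOn.add (fun v hv => (H.der v
      (ne v (by simpa using hv))).continuousAt.continuousWithinAt) continuousOn_const)
      fun v hv => (pos v (by simpa using hv)).ne')
  have hv1 : ‖v‖ = 1 := by simpa using hv
  set l := ⟪x, v⟫ / (h v + r) with hl
  have e1 : ⟪x, v⟫ = l * (h v + r) := (div_mul_cancel₀ _ (pos v hv1).ne').symm
  have e2 : ∀ w, ⟪x, w⟫ ≤ l * (h w + r * ‖w‖) := by
    intro w
    rcases eq_or_ne w 0 with rfl | hw
    · simp [H.zero]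
    · have h1 : ⟪x, nr w⟫ / (h (nr w) + r) ≤ l := hm (by simpa using norm_nr hw)
      rw [div_le_iff₀ (pos _ (norm_nr hw))] at h1
      have h2 : ⟪x, w⟫ = ‖w‖ * ⟪x, nr w⟫ := by rw [← real_inner_smul_right, smul_nr]
      rw [h2, H.eq_nr hw]
      nlinarith [norm_nonneg w]
  have l0 : 0 ≤ l := by
    by_contra hc
    have h1 := e2 (-v)
    have h2 := pos v hv1
    have h3 := pos (-v) (by simpa using hv1)
    rw [inner_neg_right, norm_neg, hv1, e1] at h1
    nlinarith
  refine ⟨l, l0, v, hv1, ?_, e1, e2⟩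
  have hn : HasFDerivAt (fun w : E => ‖w‖) (innerSL ℝ v) v := by
    have h1 := (hasStrictFDerivAt_norm_sq v).hasFDerivAt.sqrt (by simp [hv1])
    simp only [Real.sqrt_sq (norm_nonneg _), hv1] at h1
    convert h1 using 1
    ext w
    simp
  have hd := (((H.der v (ne v hv1)).add (hn.const_mul r)).const_mul l).sub
    (innerSL ℝ x).hasFDerivAt
  have hmin : IsLocalMin (fun w => l * (h w + r * ‖w‖) - ⟪x, w⟫) v :=
    Filter.Eventually.of_forall fun w => by
      simp only [hv1, e1, mul_one, sub_self]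
      linarith [e2 w]
  have h0 := hmin.hasFDerivAt_eq_zero hd
  rw [Nm_smul N l0 hv1]
  refine ext_inner_right ℝ fun w => ?_
  have := congrArg (fun φ : E →L[ℝ] ℝ => φ w) h0
  simp only [nr_unit hv1, ContinuousLinearMap.sub_apply, ContinuousLinearMap.smul_apply,
    ContinuousLinearMap.add_apply, innerSL_apply_apply, smul_eq_mul, inner_add_left,
    ContinuousLinearMap.zero_apply] at this
  simp only [inner_add_left, real_inner_smul_left]
  linarith

theorem grad_mem [Nontrivial E] (H : Sup h N) {v : E} (hv : ‖v‖ = 1) : v + N v ∈ body h := by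
  obtain ⟨l, l0, u, hu, e, -, h2⟩ := H.key le_rfl (v + N v)
  obtain ⟨C, hC, hl⟩ := H.lip
  have e2 : v = l • u := inj hC hl le_rfl (by
    have := Nm_smul N zero_le_one hv
    simp only [one_smul] at this
    simp only [zero_smul, add_zero] at e ⊢
    rw [this, e])
  have : l = 1 := by
    rw [e2, norm_smul, hu, mul_one, Real.norm_of_nonneg l0] at hv
    exact hv
  intro w
  simpa [this] using h2 w

omit [FiniteDimensional ℝ E] in
theorem zero_mem (H : Sup h N) : (0 : E) ∈ body h := by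
  intro w
  rcases eq_or_ne w 0 with rfl | hw
  · simp [H.zero]
  · rw [inner_zero_left, H.eq_nr hw]
    exact mul_nonneg (norm_nonneg _) (by linarith [(abs_lt.1 (H.bd (norm_nr hw))).1])

omit [FiniteDimensional ℝ E] in
theorem convex (h : E → ℝ) : Convex ℝ (body h) := by
  intro x hx y hy a b ha hb hab v
  rw [inner_add_left, real_inner_smul_left, real_inner_smul_left]
  have h1 := mul_le_mul_of_nonneg_left (hx v) ha
  have h2 := mul_le_mul_of_nonneg_left (hy v) hb
  have : a * h v + b * h v = h v := by rw [← add_mul, hab, one_mul]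
  linarith

theorem compact (H : Sup h N) : IsCompact (body h) := by
  refine isCompact_of_isClosed_isBounded ?_ ((isBounded_closedBall (x := (0 : E)) (r := 2)).subset
    fun x hx => ?_)
  · unfold body
    simp only [setOf_forall]
    exact isClosed_iInter fun v => isClosed_le (by fun_prop) continuous_const
  · rcases eq_or_ne x 0 with rfl | h0
    · simp
    · have h1 := hx x
      rw [real_inner_self_eq_norm_sq, H.eq_nr h0] at h1
      have h2 := (abs_lt.1 (H.bd (norm_nr h0))).2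
      have h3 := norm_pos_iff.2 h0
      rw [mem_closedBall_zero_iff]
      nlinarith

end Sup

noncomputable def adj (T : W →ₗᵢ[ℝ] E) : E →L[ℝ] W := T.toContinuousLinearMap.adjoint

theorem adj_inner (T : W →ₗᵢ[ℝ] E) (x : E) (v : W) : ⟪adj T x, v⟫ = ⟪x, T v⟫ :=
  ContinuousLinearMap.adjoint_inner_left _ _ _

theorem adj_apply (T : W →ₗᵢ[ℝ] E) (v : W) : adj T (T v) = v :=
  ext_inner_right ℝ fun w => by rw [adj_inner, T.inner_map_map]

theorem adj_norm (T : W →ₗᵢ[ℝ] E) (x : E) : ‖adj T x‖ ≤ ‖x‖ := by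
  have h1 := adj_inner T x (adj T x)
  have h2 := real_inner_le_norm x (T (adj T x))
  rw [real_inner_self_eq_norm_sq] at h1
  rw [T.norm_map] at h2
  by_contra hc
  nlinarith [norm_nonneg x]

omit [FiniteDimensional ℝ E] [FiniteDimensional ℝ W] in
theorem map_nr (T : W →ₗᵢ[ℝ] E) (y : W) : T (nr y) = nr (T y) := by simp [nr]

theorem Sup.res {h : E → ℝ} {N : E → E} (H : Sup h N) (T : W →ₗᵢ[ℝ] E) :
    Sup (fun y => h (T y)) (fun y => adj T (N (T y))) where
  hom t ht y := by rw [map_smul, H.hom t ht]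
  der y hy := by
    refine ((H.der (T y) fun h0 => hy (T.injective (h0.trans (map_zero T).symm))).comp y
      T.toContinuousLinearMap.hasFDerivAt).congr_fderiv ?_
    ext w
    simp [inner_add_left, adj_inner, ← map_nr]
  lip := by
    obtain ⟨C, hC, hl⟩ := H.lip
    refine ⟨C, hC, LipschitzWith.of_dist_le_mul fun x y => ?_⟩
    have := hl.dist_le_mul (T x) (T y)
    rw [T.dist_map, dist_eq_norm] at this
    refine le_trans (le_of_eq ?_) ((adj_norm T _).trans this)
    simp [Nm, dist_eq_norm, map_nr]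

theorem Sup.image [Nontrivial E] [Nontrivial W] {h : E → ℝ} {N : E → E} (H : Sup h N)
    (T : W →ₗᵢ[ℝ] E) {r : ℝ} (hr : 0 ≤ r) : adj T '' body h + closedBall 0 r =
      (fun y => y + Nm (fun y => adj T (N (T y))) y + r • y) '' closedBall 0 1 := by
  apply Subset.antisymm
  · rintro _ ⟨_, ⟨x, hx, rfl⟩, z, hz, rfl⟩
    obtain ⟨l, l0, v, hv, e, e1, -⟩ := (H.res T).key hr (adj T x + z)
    refine ⟨l • v, ?_, e.symm⟩
    rw [mem_closedBall_zero_iff] at hz ⊢
    rw [norm_smul, hv, mul_one, Real.norm_of_nonneg l0]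
    rw [inner_add_left, adj_inner] at e1
    have h1 := hx (T v)
    have h2 := real_inner_le_norm z v
    have h3 := (abs_lt.1 ((H.res T).bd hv)).1
    rw [hv] at h2
    by_contra hc
    nlinarith
  · rintro _ ⟨y, hy, rfl⟩
    rw [mem_closedBall_zero_iff] at hy
    refine ⟨_, ⟨?_, ?_, rfl⟩, r • y, ?_, ?_⟩
    · exact ‖y‖ • (T (nr y) + N (T (nr y)))
    · rcases eq_or_ne y 0 with rfl | h0
      · simpa using H.zero_mem
      · exact (Sup.convex h).smul_mem_of_zero_mem H.zero_mem
          (H.grad_mem (by rw [T.norm_map, norm_nr h0])) ⟨norm_nonneg _, hy⟩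
    · rw [mem_closedBall_zero_iff, norm_smul, Real.norm_of_nonneg hr]
      nlinarith
    · simp only [map_smul, map_add, adj_apply, smul_add, smul_nr, Nm]

end Pool.Agent.H.MP_f6b738_gt
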