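import Pool.Agent.H.MP_f6b738_gt.A

namespace Pool.Agent.H.MP_f6b738_gt

open Set Metric MeasureTheory Pointwise
open scoped RealInnerProductSpace NNReal

variable {E W F : Type*} [NormedAddCommGroup E] [InnerProductSpace ℝ E] [FiniteDimensional ℝ E]
  [NormedAddCommGroup W] [InnerProductSpace ℝ W] [FiniteDimensional ℝ W]
  [NormedAddCommGroup F] [NormedSpace ℝ F]

omit [FiniteDimensional ℝ E] in
theorem norm_nr_le (y : E) : ‖nr y‖ ≤ 1 := by
  rcases eq_or_ne y 0 with rfl | hy
  · simp [nr]
  · exact (norm_nr hy).le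

theorem lip_Nm {N : E → E} (hN : ContDiff ℝ 1 N) : ∃ C : ℝ≥0, LipschitzWith C (Nm N) := by
  obtain ⟨C, hC⟩ := hN.contDiffOn.exists_lipschitzOnWith one_ne_zero (convex_closedBall (0 : E) 1)
    (isCompact_closedBall 0 1)
  obtain ⟨B, hB⟩ := (isCompact_closedBall (0 : E) 1).exists_bound_of_continuousOn
    hN.continuous.continuousOn
  have hB0 : 0 ≤ B := (norm_nonneg _).trans (hB 0 (by simp))
  refine ⟨2 * C + ⟨B, hB0⟩, LipschitzWith.of_dist_le_mul fun x y => ?_⟩
  have m : ∀ y : E, nr y ∈ closedBall (0 : E) 1 := fun y => by simpa using norm_nr_le y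
  have e : Nm N x - Nm N y = ‖x‖ • (N (nr x) - N (nr y)) + (‖x‖ - ‖y‖) • N (nr y) := by
    simp only [Nm]
    module
  have e2 : ‖x‖ • (nr x - nr y) = (x - y) - (‖x‖ - ‖y‖) • nr y := by
    rw [smul_sub, sub_smul, smul_nr, smul_nr]
    abel
  have h1 := hC.dist_le_mul _ (m x) _ (m y)
  have h2 := abs_norm_sub_norm_le x y
  have h3 : ‖x‖ * ‖nr x - nr y‖ ≤ 2 * ‖x - y‖ := by
    rw [← norm_norm x, ← norm_smul, e2]
    refine (norm_sub_le _ _).trans ?_
    rw [norm_smul, Real.norm_eq_abs]
    nlinarith [norm_nr_le y, abs_nonneg (‖x‖ - ‖y‖)]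
  simp only [dist_eq_norm] at h1 ⊢
  rw [e]
  refine (norm_add_le _ _).trans ?_
  rw [norm_smul, norm_smul, norm_norm, Real.norm_eq_abs]
  have h4 := mul_le_mul_of_nonneg_left h1 (norm_nonneg x)
  have h5 := mul_le_mul h2 (hB _ (m y)) (norm_nonneg _) (norm_nonneg _)
  have h6 := mul_le_mul_of_nonneg_left h3 C.2
  change _ ≤ (2 * (C : ℝ) + B) * _
  change (C : ℝ) * _ ≤ (C : ℝ) * _ at h6
  nlinarith

theorem det_pos (D : E →L[ℝ] E) {c : ℝ} (h : ‖D‖ < c) :
    0 < (c • ContinuousLinearMap.id ℝ E + D).det := by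
  have hc : 0 < c := (norm_nonneg _).trans_lt h
  have ne : ∀ s ∈ Icc (0 : ℝ) 1, (c • ContinuousLinearMap.id ℝ E + s • D).det ≠ 0 := by
    intro s hs h0
    obtain ⟨v, hv, hv0⟩ := (Submodule.ne_bot_iff _).1 (LinearMap.det_eq_zero_iff_ker_ne_bot.1 h0)
    have e : c • v = -(s • D v) := eq_neg_of_add_eq_zero_left hv
    have h1 := congrArg norm e
    rw [norm_neg, norm_smul, norm_smul, Real.norm_of_nonneg hc.le, Real.norm_of_nonneg hs.1] at h1
    have h2 := D.le_opNorm v
    have h3 := norm_pos_iff.2 hv0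
    nlinarith [hs.1, hs.2, norm_nonneg (D v)]
  by_contra hn
  have hcont : Continuous fun s : ℝ => (c • ContinuousLinearMap.id ℝ E + s • D).det :=
    ContinuousLinearMap.continuous_det.comp (by fun_prop)
  obtain ⟨s, hs, h0⟩ := intermediate_value_Icc' zero_le_one hcont.continuousOn
    (show (0 : ℝ) ∈ Icc _ _ from ⟨by simpa using hn, by
      simp only [zero_smul, add_zero, ContinuousLinearMap.det]
      rw [ContinuousLinearMap.coe_smul, LinearMap.det_smul]
      simp [hc.le]⟩)
  exact ne s hs h0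

noncomputable def Dm (N : E → E) (n : E) : E →L[ℝ] E :=
  (innerSL ℝ n).smulRight (N n) +
    (fderiv ℝ N n).comp (ContinuousLinearMap.id ℝ E - (innerSL ℝ n).smulRight n)

omit [FiniteDimensional ℝ E] in
theorem hasFDerivAt_norm {y : E} (hy : y ≠ 0) :
    HasFDerivAt (fun w : E => ‖w‖) (innerSL ℝ (nr y)) y := by
  have h0 := norm_ne_zero_iff.2 hy
  have h1 := (hasStrictFDerivAt_norm_sq y).hasFDerivAt.sqrt (by simp [hy])
  simp only [Real.sqrt_sq (norm_nonneg _)] at h1
  refine h1.congr_fderiv ?_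
  ext w
  simp [nr, real_inner_smul_left]
  field_simp

omit [FiniteDimensional ℝ E] in
theorem hasFDerivAt_nr {y : E} (hy : y ≠ 0) : HasFDerivAt nr
    (‖y‖⁻¹ • (ContinuousLinearMap.id ℝ E - (innerSL ℝ (nr y)).smulRight (nr y))) y := by
  have h0 := norm_ne_zero_iff.2 hy
  have h1 := (hasDerivAt_inv h0).comp_hasFDerivAt y (hasFDerivAt_norm hy)
  refine (h1.smul (hasFDerivAt_id y)).congr_fderiv ?_
  ext w
  simp only [nr, ContinuousLinearMap.add_apply, ContinuousLinearMap.smul_apply,
    ContinuousLinearMap.id_apply, ContinuousLinearMap.smulRight_apply, Function.comp_apply,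
    ContinuousLinearMap.sub_apply, id, smul_eq_mul]
  match_scalars
  · ring
  · field_simp

omit [FiniteDimensional ℝ E] in
theorem hasFDerivAt_Nm {N : E → E} (hN : Differentiable ℝ N) {y : E} (hy : y ≠ 0) :
    HasFDerivAt (Nm N) (Dm N (nr y)) y := by
  have h0 := norm_ne_zero_iff.2 hy
  refine ((hasFDerivAt_norm hy).smul ((hN (nr y)).hasFDerivAt.comp y
    (hasFDerivAt_nr hy))).congr_fderiv ?_
  ext w
  simp [Dm, smul_smul, mul_inv_cancel₀ h0, add_comm]

variable [MeasurableSpace E] [BorelSpace E] [MeasurableSpace W] [BorelSpace W]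

noncomputable def Lam (φ : E → F) : F := ∫ y in closedBall (0 : E) 1, φ (nr y)

omit [NormedSpace ℝ F] in
theorem Lam_int {φ : E → F} (hφ : Continuous φ) :
    IntegrableOn (fun y => φ (nr y)) (closedBall (0 : E) 1) := by
  obtain ⟨B, hB⟩ := (isCompact_closedBall (0 : E) 1).exists_bound_of_continuousOn hφ.continuousOn
  have hm : Measurable (nr : E → E) := measurable_norm.inv.smul measurable_id
  exact Measure.integrableOn_of_bounded (M := B) measure_closedBall_lt_top.ne
    (hφ.comp_aestronglyMeasurable hm.aestronglyMeasurable)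
    (Filter.Eventually.of_forall fun y => hB _ (by simpa using norm_nr_le y))

theorem Lam_add {φ ψ : E → F} (hφ : Continuous φ) (hψ : Continuous ψ) :
    Lam (fun n => φ n + ψ n) = Lam φ + Lam ψ := integral_add (Lam_int hφ) (Lam_int hψ)

theorem Lam_congr [Nontrivial E] {φ ψ : E → F} (h : ∀ n, ‖n‖ = 1 → φ n = ψ n) :
    Lam φ = Lam ψ := by
  refine integral_congr_ae (ae_restrict_of_ae ?_)
  filter_upwards [compl_mem_ae_iff.2 (measure_singleton (0 : E))] with y hy
  exact h _ (norm_nr hy)

theorem Lam_iso (T : E ≃ₗᵢ[ℝ] E) (φ : E → F) : Lam (fun n => φ (T n)) = Lam φ := by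
  have := T.measurePreserving.setIntegral_preimage_emb T.toHomeomorph.measurableEmbedding
    (fun y => φ (nr y)) (closedBall 0 1)
  rw [Lam, Lam, ← this, T.preimage_closedBall, map_zero]
  simp [nr]

theorem vol [Nontrivial E] {N : E → E} (hN : Differentiable ℝ N) {C : ℝ≥0} (hC : C < 1)
    (hl : LipschitzWith C (Nm N)) {r : ℝ} (hr : 0 ≤ r) :
    (volume ((fun y => y + Nm N y + r • y) '' closedBall 0 1)).toReal =
      Lam fun n => ((1 + r) • ContinuousLinearMap.id ℝ E + Dm N n).det := by
  have hs : (closedBall (0 : E) 1 \ {0} : Set E) =ᵐ[volume] closedBall (0 : E) 1 :=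
    sdiff_null_ae_eq_self (measure_singleton _)
  have h1 := integral_image_eq_integral_abs_det_fderiv_smul volume
    (s := closedBall (0 : E) 1 \ {0}) (f := fun y => y + Nm N y + r • y)
    (f' := fun y => (1 + r) • ContinuousLinearMap.id ℝ E + Dm N (nr y))
    (measurableSet_closedBall.diff (measurableSet_singleton _)) (fun y hy =>
      ((((hasFDerivAt_id y).add (hasFDerivAt_Nm hN hy.2)).add
        ((hasFDerivAt_id y).const_smul r)).congr_fderiv (by module)).hasFDerivWithinAt)
    (inj hC hl hr).injOn (fun _ => (1 : ℝ))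
  rw [image_diff (inj hC hl hr), image_singleton,
    setIntegral_congr_set (sdiff_null_ae_eq_self (measure_singleton _))] at h1
  simp only [integral_const, MeasurableSet.univ, measureReal_restrict_apply, univ_inter,
    smul_eq_mul, mul_one] at h1
  rw [← measureReal_def, h1, Lam, ← setIntegral_congr_set hs]
  refine setIntegral_congr_fun (measurableSet_closedBall.diff (measurableSet_singleton _))
    fun y hy => abs_of_pos (det_pos _ ?_)
  have := (hasFDerivAt_Nm hN hy.2).le_of_lipschitz hl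
  have hC' : (C : ℝ) < 1 := hC
  linarith

noncomputable def gam (V : Type*) [NormedAddCommGroup V] [InnerProductSpace ℝ V]
    [FiniteDimensional ℝ V] [MeasurableSpace V] [BorelSpace V] (j : ℕ) : ℝ :=
  ∫ t in closedBall (0 : V) 1, √(1 - ‖t‖ ^ 2) ^ j

theorem gam_scale [Nontrivial E] (j : ℕ) {ε : ℝ} (hε : 0 ≤ ε) :
    ∫ t in closedBall (0 : E) ε, √(ε ^ 2 - ‖t‖ ^ 2) ^ j =
      gam E j * ε ^ (j + Module.finrank ℝ E) := by
  rcases hε.eq_or_lt with rfl | hε
  · rw [closedBall_zero, Measure.restrict_singleton', integral_zero_measure,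
      zero_pow (by have := Module.finrank_pos (R := ℝ) (M := E); omega), mul_zero]
  · have := Measure.setIntegral_comp_smul_of_pos volume
      (fun t : E => √(ε ^ 2 - ‖t‖ ^ 2) ^ j) (closedBall 0 1) hε
    rw [_root_.smul_closedBall _ _ zero_le_one, smul_zero, Real.norm_of_nonneg hε.le, mul_one,
      smul_eq_mul, eq_inv_mul_iff_mul_eq₀ (by positivity)] at this
    rw [← this, gam, pow_add, ← mul_assoc, ← integral_mul_const, mul_comm]
    congr 2
    ext t
    rw [norm_smul, Real.norm_of_nonneg hε.le, ← mul_pow,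
      show ε ^ 2 - (ε * ‖t‖) ^ 2 = (1 - ‖t‖ ^ 2) * ε ^ 2 by ring,
      Real.sqrt_mul' _ (sq_nonneg ε), Real.sqrt_sq hε.le]

theorem lift (S : Submodule ℝ E) [Nontrivial Sᗮ] (e : W ≃ₗᵢ[ℝ] S) {K : Set E} (hK : IsCompact K)
    {n : ℕ} (c : ℕ → ℝ) (hc : ∀ r : ℝ, 0 ≤ r → (volume (adj (S.subtypeₗᵢ.comp
      e.toLinearIsometry) '' K + closedBall 0 r)).toReal = ∑ j ∈ Finset.range n, c j * r ^ j) :
    ∃ p : Polynomial ℝ, (∀ ε : ℝ, 0 ≤ ε → p.eval ε =
      (volume (S.starProjection '' K + closedBall 0 ε)).toReal) ∧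
      ∀ j < n, p.coeff (j + Module.finrank ℝ Sᗮ) = c j * gam Sᗮ j := by
  set T := S.subtypeₗᵢ.comp e.toLinearIsometry with hT
  set L := adj T '' K with hL
  have cL : IsCompact L := hK.image (adj T).continuous
  have hP : S.starProjection '' K = T '' L := by
    rw [hL, image_image]
    refine image_congr fun x _ => Submodule.eq_starProjection_of_mem_of_inner_eq_zero (e _).2
      fun w hw => ?_
    have : w = T (e.symm ⟨w, hw⟩) := by simp [hT]
    rw [this, inner_sub_left, T.inner_map_map, adj_inner, sub_self]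
  refine ⟨∑ j ∈ Finset.range n, Polynomial.monomial (j + Module.finrank ℝ Sᗮ) (c j * gam Sᗮ j),
    fun ε hε => ?_, fun j hj => ?_⟩
  · have mp : MeasurePreserving (fun z : W × Sᗮ => T z.1 + z.2) :=
      S.orthogonalDecomposition.symm.measurePreserving.comp
        ((WithLp.volume_preserving_toLp S Sᗮ).comp
          (e.measurePreserving.prod (MeasurePreserving.id volume)))
    have cA : IsCompact (T '' L + closedBall 0 ε) :=
      (cL.image T.continuous).add (isCompact_closedBall _ _)
    have py : ∀ (y : W) (t : Sᗮ), ‖T y + t‖ ^ 2 = ‖y‖ ^ 2 + ‖t‖ ^ 2 := fun y t => by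
      rw [norm_add_sq_real, T.norm_map, show ⟪T y, (t : E)⟫ = 0 from t.2 _ (e y).2]
      simp
    have sl : ∀ t : Sᗮ, volume ((fun y => (y, t)) ⁻¹' ((fun z : W × Sᗮ => T z.1 + z.2) ⁻¹'
        (T '' L + closedBall 0 ε))) = (closedBall (0 : Sᗮ) ε).indicator (fun t => ENNReal.ofReal
          (∑ j ∈ Finset.range n, c j * √(ε ^ 2 - ‖t‖ ^ 2) ^ j)) t := by
      intro t
      have mem : ∀ y, y ∈ (fun y => (y, t)) ⁻¹' ((fun z : W × Sᗮ => T z.1 + z.2) ⁻¹'
          (T '' L + closedBall 0 ε)) ↔ ∃ l ∈ L, ‖y - l‖ ^ 2 + ‖t‖ ^ 2 ≤ ε ^ 2 := by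
        intro y
        constructor
        · rintro ⟨_, ⟨l, hl, rfl⟩, z, hz, h⟩
          refine ⟨l, hl, ?_⟩
          have : z = T (y - l) + t := by
            rw [map_sub]
            linear_combination (norm := module) h
          rw [← py, ← this]
          exact pow_le_pow_left₀ (norm_nonneg _) (mem_closedBall_zero_iff.1 hz) 2
        · rintro ⟨l, hl, h⟩
          refine ⟨_, ⟨l, hl, rfl⟩, T (y - l) + t, ?_, by simp only [map_sub]; abel⟩
          rw [← py] at h
          exact mem_closedBall_zero_iff.2 (abs_le_of_sq_le_sq' h hε).2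
      by_cases ht : t ∈ closedBall (0 : Sᗮ) ε
      · rw [indicator_of_mem ht, ← hc _ (Real.sqrt_nonneg _), ENNReal.ofReal_toReal
          (cL.add (isCompact_closedBall _ _)).measure_lt_top.ne]
        congr 1
        ext y
        rw [mem]
        have h0 : 0 ≤ ε ^ 2 - ‖t‖ ^ 2 := sub_nonneg.2
          (pow_le_pow_left₀ (norm_nonneg _) (mem_closedBall_zero_iff.1 ht) 2)
        constructor
        · rintro ⟨l, hl, h⟩
          exact ⟨l, hl, y - l, mem_closedBall_zero_iff.2 (Real.le_sqrt_of_sq_le (by linarith)),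
            by simp⟩
        · rintro ⟨l, hl, z, hz, rfl⟩
          refine ⟨l, hl, ?_⟩
          have := (Real.le_sqrt (norm_nonneg _) h0).1 (mem_closedBall_zero_iff.1 hz)
          simp only [add_sub_cancel_left]
          linarith
      · rw [indicator_of_notMem ht]
        convert measure_empty (μ := (volume : Measure W))
        refine eq_empty_of_forall_notMem fun y hy => ht ?_
        obtain ⟨l, -, h⟩ := (mem y).1 hy
        exact mem_closedBall_zero_iff.2
          (abs_le_of_sq_le_sq' (by nlinarith [sq_nonneg ‖y - l‖]) hε).2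
    have ci : ∀ j, IntegrableOn (fun t : Sᗮ => c j * √(ε ^ 2 - ‖t‖ ^ 2) ^ j) (closedBall 0 ε) :=
      fun j => (by fun_prop : Continuous _).continuousOn.integrableOn_compact
        (isCompact_closedBall _ _)
    rw [hP, ← mp.measure_preimage cA.measurableSet.nullMeasurableSet, Measure.volume_eq_prod,
      Measure.prod_apply_symm (mp.measurable cA.measurableSet), lintegral_congr sl,
      lintegral_indicator measurableSet_closedBall, ← integral_eq_lintegral_of_nonneg_ae
      (Filter.Eventually.of_forall fun t => by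
        rw [← hc _ (Real.sqrt_nonneg _)]
        exact ENNReal.toReal_nonneg) (by fun_prop : Continuous _).aestronglyMeasurable,
      integral_finset_sum _ fun j _ => ci j, Polynomial.eval_finset_sum]
    refine Finset.sum_congr rfl fun j _ => ?_
    rw [integral_const_mul, gam_scale j hε, Polynomial.eval_monomial, mul_assoc]
  · rw [Polynomial.finset_sum_coeff, Finset.sum_eq_single j, Polynomial.coeff_monomial_same]
    · intro i _ hi
      rw [Polynomial.coeff_monomial, if_neg (by omega)]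
    · intro h
      exact absurd (Finset.mem_range.2 hj) h

end Pool.Agent.H.MP_f6b738_gt
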