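import Pool.Agent.H.MP_f6b738_gt.B

namespace Pool.Agent.H.MP_f6b738_gt

open Set Metric MeasureTheory Pointwise Complex
open scoped RealInnerProductSpace NNReal

variable {E W : Type*} [NormedAddCommGroup E] [InnerProductSpace ℝ E] [FiniteDimensional ℝ E]
  [NormedAddCommGroup W] [InnerProductSpace ℝ W] [FiniteDimensional ℝ W]

noncomputable def rv (α : E →L[ℝ] ℂ) : ℂ →L[ℝ] E :=
  reCLM.smulRight ((InnerProductSpace.toDual ℝ E).symm (reCLM.comp α)) -
    imCLM.smulRight ((InnerProductSpace.toDual ℝ E).symm (imCLM.comp α))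

theorem rv_inner (α : E →L[ℝ] ℂ) (c : ℂ) (v : E) : ⟪rv α c, v⟫ = (c * α v).re := by
  simp [rv, inner_sub_left, real_inner_smul_left]

noncomputable def hh (α β : E →L[ℝ] ℂ) (y : E) : ℝ :=
  ‖y‖ * (1 + reCLM (α (nr y) * α (nr y) * β (nr y) +
    1 / 5 * (α (nr y) * α (nr y) * β (nr y) * (α (nr y) * α (nr y) * β (nr y)))))

noncomputable def N1 (α β : E →L[ℝ] ℂ) (y : E) : E :=
  rv α (2 * (α y * β y)) + rv β (α y * α y) - reCLM (2 * (α y * α y * β y)) • y

noncomputable def N2 (α β : E →L[ℝ] ℂ) (y : E) : E :=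
  rv α (4 / 5 * (α y * α y * β y * (α y * β y))) + rv β (2 / 5 * (α y * α y * β y * (α y * α y))) -
    reCLM (α y * α y * β y * (α y * α y * β y)) • y

noncomputable def NN (α β : E →L[ℝ] ℂ) (y : E) : E := N1 α β y + N2 α β y

theorem N1_smooth (α β : E →L[ℝ] ℂ) : ContDiff ℝ 1 (N1 α β) := by
  unfold N1
  fun_prop

theorem N2_smooth (α β : E →L[ℝ] ℂ) : ContDiff ℝ 1 (N2 α β) := by
  unfold N2
  fun_prop

theorem NN_smooth (α β : E →L[ℝ] ℂ) : ContDiff ℝ 1 (NN α β) :=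
  (N1_smooth α β).add (N2_smooth α β)

theorem hh_der (α β : E →L[ℝ] ℂ) {y : E} (hy : y ≠ 0) :
    HasFDerivAt (hh α β) (innerSL ℝ (nr y + NN α β (nr y))) y := by
  have ha := α.hasFDerivAt.comp y (hasFDerivAt_nr hy)
  have hb := β.hasFDerivAt.comp y (hasFDerivAt_nr hy)
  have hf := (ha.mul ha).mul hb
  refine ((hasFDerivAt_norm hy).mul ((reCLM.hasFDerivAt.comp y
    (hf.add ((hf.mul hf).const_mul (1 / 5)))).const_add 1)).congr_fderiv ?_
  ext w
  have h0 := norm_ne_zero_iff.2 hy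
  simp only [NN, N1, N2, ContinuousLinearMap.add_apply, ContinuousLinearMap.smul_apply,
    ContinuousLinearMap.comp_apply, ContinuousLinearMap.sub_apply, ContinuousLinearMap.id_apply,
    ContinuousLinearMap.smulRight_apply, innerSL_apply_apply, inner_add_left, inner_sub_left,
    rv_inner, real_inner_smul_left, map_smul, map_sub, Function.comp_apply, Pi.mul_apply,
    Pi.add_apply, smul_eq_mul, real_smul, reCLM_apply]
  generalize α (nr y) = A, β (nr y) = B, α w = a, β w = b, ⟪nr y, w⟫ = p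
  have e : ∀ z : ℂ, ‖y‖ * ((‖y‖⁻¹ : ℝ) * z).re = z.re := fun z => by
    rw [re_ofReal_mul, mul_inv_cancel_left₀ h0]
  rw [show ∀ c : ℂ, (A * A * (c * (b - p * B)) + B * (A * (c * (a - p * A)) + A * (c * (a - p * A))) +
    1 / 5 * (A * A * B * (A * A * (c * (b - p * B)) + B * (A * (c * (a - p * A)) +
      A * (c * (a - p * A)))) + A * A * B * (A * A * (c * (b - p * B)) +
      B * (A * (c * (a - p * A)) + A * (c * (a - p * A)))))) =
      c * (2 * (A * B) * a + A * A * b + 4 / 5 * (A * A * B * (A * B)) * a +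
        2 / 5 * (A * A * B * (A * A)) * b - p * (2 * (A * A * B)) - p * (A * A * B * (A * A * B))
        - p * (A * A * B + 1 / 5 * (A * A * B * (A * A * B)))) from fun c => by ring, e]
  simp only [add_re, sub_re, re_ofReal_mul]
  ring

theorem NN_res (α β : E →L[ℝ] ℂ) (T : W →ₗᵢ[ℝ] E) (y : W) : adj T (NN α β (T y)) =
    NN (α.comp T.toContinuousLinearMap) (β.comp T.toContinuousLinearMap) y :=
  ext_inner_right ℝ fun w => by
    simp [adj_inner, NN, N1, N2, inner_add_left, inner_sub_left, rv_inner, real_inner_smul_left]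

theorem small (α β : E →L[ℝ] ℂ) : ∃ δ : ℝ, 0 < δ ∧ ∀ ε : ℝ, 0 < ε → ε < δ →
    Sup (hh α ((ε : ℂ) • β)) (NN α ((ε : ℂ) • β)) := by
  obtain ⟨C1, h1⟩ := lip_Nm (N1_smooth α β)
  obtain ⟨C2, h2⟩ := lip_Nm (N2_smooth α β)
  refine ⟨min 1 (1 / (C1 + C2 + 1)), by positivity, fun ε h0 hε => ⟨fun t ht y => ?_,
    fun y hy => hh_der _ _ hy, ⟨ε * C1 + ε ^ 2 * C2, by positivity⟩, ?_, ?_⟩⟩
  · rw [hh, hh, nr_smul ht, norm_smul, Real.norm_of_nonneg ht.le, mul_assoc]
  · change ε * C1 + ε ^ 2 * C2 < 1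
    have h3 := hε.trans_le (min_le_left _ _)
    have h4 := hε.trans_le (min_le_right _ _)
    rw [lt_div_iff₀ (by positivity)] at h4
    have : ε ^ 2 * C2 ≤ ε * C2 := mul_le_mul_of_nonneg_right (by nlinarith) C2.2
    nlinarith
  · have e : ∀ y, Nm (NN α ((ε : ℂ) • β)) y = ε • Nm (N1 α β) y + ε ^ 2 • Nm (N2 α β) y := by
      intro y
      refine ext_inner_right ℝ fun w => ?_
      simp only [Nm, NN, N1, N2, inner_add_left, inner_sub_left, rv_inner, real_inner_smul_left,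
        ContinuousLinearMap.smul_apply, smul_eq_mul, reCLM_apply]
      generalize α (nr y) = A, β (nr y) = B, α w = a, β w = b, ⟪nr y, w⟫ = p
      simp only [mul_re, mul_im, ofReal_re, ofReal_im]
      ring
    refine LipschitzWith.of_dist_le_mul fun x y => ?_
    rw [e, e]
    refine (dist_add_add_le _ _ _ _).trans ?_
    rw [dist_smul₀, dist_smul₀, Real.norm_of_nonneg h0.le, Real.norm_of_nonneg (sq_nonneg ε)]
    have h3 := mul_le_mul_of_nonneg_left (h1.dist_le_mul x y) h0.le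
    have h4 := mul_le_mul_of_nonneg_left (h2.dist_le_mul x y) (sq_nonneg ε)
    change _ ≤ (ε * C1 + ε ^ 2 * C2) * _
    linarith

noncomputable def M3 (α β : E →L[ℝ] ℂ) (n v w : E) : ℂ :=
  2 * β n * α v * α w + 2 * α n * (α v * β w + β v * α w) -
    (2 * α n * β n * α w + α n ^ 2 * β w) * ⟪n, v⟫ -
    2 * (2 * α n * β n * α v + α n ^ 2 * β v) * ⟪n, w⟫ - 2 * (α n ^ 2 * β n) * ⟪v, w⟫ +
    6 * (α n ^ 2 * β n) * ⟪n, v⟫ * ⟪n, w⟫

noncomputable def M6 (α β : E →L[ℝ] ℂ) (n v w : E) : ℂ :=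
  12 * α n ^ 2 * β n ^ 2 * α v * α w + 8 * α n ^ 3 * β n * (α v * β w + β v * α w) +
    2 * α n ^ 4 * β v * β w -
    4 * (4 * α n ^ 3 * β n ^ 2 * α w + 2 * α n ^ 4 * β n * β w) * ⟪n, v⟫ -
    5 * (4 * α n ^ 3 * β n ^ 2 * α v + 2 * α n ^ 4 * β n * β v) * ⟪n, w⟫ -
    5 * (α n ^ 4 * β n ^ 2) * ⟪v, w⟫ + 30 * (α n ^ 4 * β n ^ 2) * ⟪n, v⟫ * ⟪n, w⟫

theorem Dm_inner (α β : E →L[ℝ] ℂ) {n : E} (v w : E) :
    ⟪Dm (NN α β) n v, w⟫ = (M3 α β n v w).re + (M6 α β n v w).re / 5 := by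
  have ha := α.hasFDerivAt (x := n)
  have hb := β.hasFDerivAt (x := n)
  have hf := (ha.mul ha).mul hb
  have h1 : HasFDerivAt (N1 α β) _ n := (((rv α).hasFDerivAt.comp n ((ha.mul hb).const_mul 2)).add
    ((rv β).hasFDerivAt.comp n (ha.mul ha))).sub
    ((reCLM.hasFDerivAt.comp n (hf.const_mul 2)).smul (hasFDerivAt_id n))
  have h2 : HasFDerivAt (N2 α β) _ n := (((rv α).hasFDerivAt.comp n
    ((hf.mul (ha.mul hb)).const_mul (4 / 5))).add
    ((rv β).hasFDerivAt.comp n ((hf.mul (ha.mul ha)).const_mul (2 / 5)))).sub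
    ((reCLM.hasFDerivAt.comp n (hf.mul hf)).smul (hasFDerivAt_id n))
  have h3 : HasFDerivAt (NN α β) _ n := h1.add h2
  rw [Dm, h3.fderiv]
  simp only [NN, N1, N2, M3, M6, ContinuousLinearMap.add_apply, ContinuousLinearMap.smul_apply,
    ContinuousLinearMap.comp_apply, ContinuousLinearMap.sub_apply, ContinuousLinearMap.id_apply,
    ContinuousLinearMap.smulRight_apply, innerSL_apply_apply, inner_add_left, inner_sub_left,
    rv_inner, real_inner_smul_left, map_smul, map_sub, Function.comp_apply, Pi.mul_apply,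
    smul_eq_mul, real_smul, reCLM_apply, id, conj_trivial]
  generalize α n = A, β n = B, α w = a, β w = b, α v = c, β v = d, ⟪n, w⟫ = p, ⟪n, v⟫ = q,
    ⟪v, w⟫ = s
  simp only [← re_ofReal_mul, ← re_mul_ofReal, ← add_re, ← sub_re, ← div_ofNat_re]
  congr 1
  ring

end Pool.Agent.H.MP_f6b738_gt
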