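import Pool.Agent.H.MP_f6b738_gt.B

namespace Pool.Agent.H.MP_f6b738_gt

open Set Metric MeasureTheory

abbrev Eu (m : ℕ) := EuclideanSpace ℝ (Fin m)

def mono {m : ℕ} (d : Fin m → ℕ) (n : Eu m) : ℂ := ∏ i, (n i : ℂ) ^ d i

def SS (m k : ℕ) : Submodule ℂ (Eu m → ℂ) := Submodule.span ℂ (mono '' {d | ∑ i, d i = k})

theorem SS_mul {m j k : ℕ} {φ ψ : Eu m → ℂ} (h1 : φ ∈ SS m j) (h2 : ψ ∈ SS m k) :
    φ * ψ ∈ SS m (j + k) := by
  induction h1, h2 using Submodule.span_induction₂ with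
  | mem_mem x y hx hy =>
    obtain ⟨d, hd, rfl⟩ := hx
    obtain ⟨e, he, rfl⟩ := hy
    refine Submodule.subset_span ⟨d + e, ?_, ?_⟩
    · simp only [mem_setOf_eq, Pi.add_apply, Finset.sum_add_distrib] at hd he ⊢
      rw [hd, he]
    · ext n
      simp [mono, pow_add, Finset.prod_mul_distrib]
  | zero_left => simp
  | zero_right => simp
  | add_left x y z _ _ _ h h' => rw [add_mul]; exact add_mem h h'
  | add_right x y z _ _ _ h h' => rw [mul_add]; exact add_mem h h'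
  | smul_left r x y _ _ h => rw [smul_mul_assoc]; exact Submodule.smul_mem _ _ h
  | smul_right r x y _ _ h => rw [mul_smul_comm]; exact Submodule.smul_mem _ _ h

theorem lf_eq {m : ℕ} (α : Eu m →L[ℝ] ℂ) (n : Eu m) :
    α n = ∑ i, (n i : ℂ) * α (EuclideanSpace.single i 1) := by
  conv_lhs => rw [← (EuclideanSpace.basisFun (Fin m) ℝ).sum_repr n]
  simp

theorem SS_co {m : ℕ} (i : Fin m) : (fun n : Eu m => (n i : ℂ)) ∈ SS m 1 := by
  refine Submodule.subset_span ⟨Pi.single i 1, by simp, ?_⟩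
  ext n
  rw [mono, Finset.prod_eq_single i (fun j _ hj => by simp [hj]) (by simp)]
  simp

theorem SS_lf {m : ℕ} (a : Fin m → ℂ) : (fun n : Eu m => ∑ i, (n i : ℂ) * a i) ∈ SS m 1 := by
  have : (fun n : Eu m => ∑ i, (n i : ℂ) * a i) = ∑ i, a i • fun n : Eu m => (n i : ℂ) := by
    ext n
    simp [mul_comm]
  rw [this]
  exact sum_mem fun i _ => Submodule.smul_mem _ _ (SS_co i)

theorem SS_sq (m : ℕ) : (fun n : Eu m => ∑ i, (n i : ℂ) ^ 2) ∈ SS m 2 := by
  have : (fun n : Eu m => ∑ i, (n i : ℂ) ^ 2) =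
      ∑ i, (fun n : Eu m => (n i : ℂ)) * fun n : Eu m => (n i : ℂ) := by
    ext n
    simp [sq]
  rw [this]
  exact sum_mem fun i _ => SS_mul (j := 1) (k := 1) (SS_co i) (SS_co i)

theorem span_eq {m : ℕ} (C : (Eu m → ℂ) →ₗ[ℂ] ℂ)
    (h : ∀ d : Fin m → ℕ, ∑ i, d i = 6 → Lam (mono d) = C (mono d)) {φ : Eu m → ℂ}
    (hφ : φ ∈ SS m 6) : Continuous φ ∧ Lam φ = C φ := by
  induction hφ using Submodule.span_induction with
  | mem x hx =>
    obtain ⟨d, hd, rfl⟩ := hx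
    exact ⟨by unfold mono; fun_prop, h d hd⟩
  | zero => exact ⟨continuous_const, by simp [Lam]⟩
  | add x y _ _ hx hy => exact ⟨hx.1.add hy.1, by rw [map_add, ← hx.2, ← hy.2]; exact Lam_add hx.1 hy.1⟩
  | smul c x _ hx =>
    exact ⟨hx.1.const_smul c, by rw [map_smul, ← hx.2]; exact integral_smul c _⟩

theorem Lam_mat {m : ℕ} (M : Matrix (Fin m) (Fin m) ℝ)
    (h : ∀ x : Fin m → ℝ, ∑ i, M.mulVec x i ^ 2 = ∑ i, x i ^ 2) (φ : Eu m → ℂ) :
    Lam (fun n : Eu m => φ (WithLp.toLp 2 (M.mulVec n.ofLp))) = Lam φ :=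
  Lam_iso (LinearIsometry.toLinearIsometryEquiv ⟨Matrix.toLpLin 2 2 M, fun x => by
    rw [EuclideanSpace.norm_eq, EuclideanSpace.norm_eq]
    simp only [Real.norm_eq_abs, sq_abs]
    exact congrArg _ (h x.ofLp)⟩ rfl) φ

noncomputable def mo (i j k : ℕ) : ℂ := Lam (mono ![i, j, k])

theorem s01 (i j k : ℕ) : mo i j k = mo j i k := by
  rw [mo, mo, ← Lam_mat !![0, 1, 0; 1, 0, 0; 0, 0, 1] fun x => by
    simp [Fin.sum_univ_three, Matrix.mulVec, dotProduct]; ring]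
  congr 1
  ext n
  simp [mono, Fin.prod_univ_three, Matrix.mulVec, dotProduct, Fin.sum_univ_three, mul_comm]

theorem s12 (i j k : ℕ) : mo i j k = mo i k j := by
  rw [mo, mo, ← Lam_mat !![1, 0, 0; 0, 0, 1; 0, 1, 0] fun x => by
    simp [Fin.sum_univ_three, Matrix.mulVec, dotProduct]; ring]
  congr 1
  ext n
  simp [mono, Fin.prod_univ_three, Matrix.mulVec, dotProduct, Fin.sum_univ_three]
  ring

theorem o0 {i : ℕ} (hi : Odd i) (j k : ℕ) : mo i j k = 0 := by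
  have : mo i j k = -mo i j k := by
    conv_lhs => rw [mo, ← Lam_mat !![-1, 0, 0; 0, 1, 0; 0, 0, 1] fun x => by
      simp [Fin.sum_univ_three, Matrix.mulVec, dotProduct]]
    rw [mo, Lam, Lam, ← integral_neg]
    congr 1
    ext n
    simp [mono, Fin.prod_univ_three, Matrix.mulVec, dotProduct, Fin.sum_univ_three, hi.neg_pow]
  linear_combination this / 2

noncomputable def ev {m : ℕ} (v : Fin m → ℝ) : (Eu m → ℂ) →ₗ[ℂ] ℂ :=
  LinearMap.proj (WithLp.toLp 2 v)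

noncomputable def C3 (x y z : ℂ) : (Eu 3 → ℂ) →ₗ[ℂ] ℂ :=
  x • (ev ![1, 0, 0] + ev ![0, 1, 0] + ev ![0, 0, 1]) +
    y • (ev ![1, 1, 0] + ev ![1, -1, 0] + ev ![1, 0, 1] + ev ![1, 0, -1] + ev ![0, 1, 1] +
      ev ![0, 1, -1]) + z • (ev ![1, 1, 1] + ev ![1, 1, -1] + ev ![1, -1, 1] + ev ![1, -1, -1])

theorem gen3 (i j k : ℕ) (h : i + j + k = 6) : mo i j k =
    C3 (mo 6 0 0 - 2 * mo 4 2 0 + mo 2 2 2) ((mo 4 2 0 - mo 2 2 2) / 2) (mo 2 2 2 / 4)
      (mono ![i, j, k]) := by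
  have e1 : mo 0 6 0 = mo 6 0 0 := s01 _ _ _
  have e2 : mo 0 0 6 = mo 6 0 0 := by rw [s12, s01]
  have e3 : mo 2 4 0 = mo 4 2 0 := s01 _ _ _
  have e4 : mo 4 0 2 = mo 4 2 0 := s12 _ _ _
  have e5 : mo 2 0 4 = mo 4 2 0 := by rw [s12, s01]
  have e6 : mo 0 4 2 = mo 4 2 0 := by rw [s01, s12]
  have e7 : mo 0 2 4 = mo 4 2 0 := by rw [s01, e5]
  have o1 : ∀ i j k, Odd j → mo i j k = 0 := fun i j k h => by rw [s01, o0 h]
  simp only [C3, ev, mono, Fin.prod_univ_three, LinearMap.add_apply, LinearMap.smul_apply,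
    LinearMap.proj_apply, smul_eq_mul]
  obtain rfl : k = 6 - i - j := by omega
  have hi : i ≤ 6 := by omega
  have hj : j ≤ 6 - i := by omega
  interval_cases i <;> interval_cases j <;> simp [e1, e2, e3, e4, e5, e6, e7] <;>
    (try ring_nf) <;> first | exact o0 (by decide) _ _ | exact o1 _ _ _ (by decide)

theorem lam3 : ∃ μ : ℂ, ∀ φ ∈ SS 3 6, Lam φ = μ * C3 10 1 (1 / 4) φ := by
  have key := fun φ (hφ : φ ∈ SS 3 6) => (span_eq (C3 _ _ _) (fun d hd => by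
    have : d = ![d 0, d 1, d 2] := by
      ext i
      fin_cases i <;> rfl
    rw [this]
    exact gen3 _ _ _ (by simpa [Fin.sum_univ_three] using hd)) hφ).2
  have l := SS_lf ![3 / 5, 4 / 5, 0]
  have l2 := SS_mul l l
  have hM : ∀ x : Fin 3 → ℝ, ∑ i, (!![3 / 5, 4 / 5, 0; -4 / 5, 3 / 5, 0; 0, 0, 1] :
      Matrix (Fin 3) (Fin 3) ℝ).mulVec x i ^ 2 = ∑ i, x i ^ 2 := fun x => by
    simp [Fin.sum_univ_three, Matrix.mulVec, dotProduct]
    ring
  have h1 := key _ (SS_mul (j := 2) (k := 4) l2 (SS_mul (j := 2) (k := 2) l2 l2))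
  have h2 := key _ (SS_mul (j := 4) (k := 2) (SS_mul (j := 2) (k := 2) l2 l2)
    (SS_mul (j := 1) (k := 1) (SS_co 2) (SS_co 2)))
  rw [show Lam _ = mo 6 0 0 by
    rw [mo, ← Lam_mat _ hM (mono _)]
    congr 1
    ext n
    simp [mono, Fin.prod_univ_three, Matrix.mulVec, dotProduct, Fin.sum_univ_three]
    ring] at h1
  rw [show Lam _ = mo 4 0 2 by
    rw [mo, ← Lam_mat _ hM (mono _)]
    congr 1
    ext n
    simp [mono, Fin.prod_univ_three, Matrix.mulVec, dotProduct, Fin.sum_univ_three]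
    ring, s12] at h2
  simp [C3, ev, Fin.sum_univ_three] at h1 h2
  refine ⟨mo 2 2 2, fun φ hφ => ?_⟩
  have a1 : mo 4 2 0 = 3 * mo 2 2 2 := by linear_combination (625 / 288) * h2
  have a2 : mo 6 0 0 = 15 * mo 2 2 2 := by linear_combination (625 / 432) * h1 + 5 * a1
  rw [key φ hφ, a1, a2]
  simp only [C3, LinearMap.add_apply, LinearMap.smul_apply, smul_eq_mul]
  ring

noncomputable def mt (i j : ℕ) : ℂ := Lam (mono ![i, j])

theorem t01 (i j : ℕ) : mt i j = mt j i := by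
  rw [mt, mt, ← Lam_mat !![0, 1; 1, 0] fun x => by
    simp [Fin.sum_univ_two, Matrix.mulVec, dotProduct]; ring]
  congr 1
  ext n
  simp [mono, Fin.prod_univ_two, Matrix.mulVec, dotProduct, Fin.sum_univ_two]
  ring

theorem to0 {i : ℕ} (hi : Odd i) (j : ℕ) : mt i j = 0 := by
  have : mt i j = -mt i j := by
    conv_lhs => rw [mt, ← Lam_mat !![-1, 0; 0, 1] fun x => by
      simp [Fin.sum_univ_two, Matrix.mulVec, dotProduct]]
    rw [mt, Lam, Lam, ← integral_neg]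
    congr 1
    ext n
    simp [mono, Fin.prod_univ_two, Matrix.mulVec, dotProduct, Fin.sum_univ_two, hi.neg_pow]
  linear_combination this / 2

noncomputable def C2 (x y : ℂ) : (Eu 2 → ℂ) →ₗ[ℂ] ℂ :=
  x • (ev ![1, 0] + ev ![0, 1]) + y • (ev ![1, 1] + ev ![1, -1])

theorem gen2 (i j : ℕ) (h : i + j = 6) :
    mt i j = C2 (mt 6 0 - mt 4 2) (mt 4 2 / 2) (mono ![i, j]) := by
  have e1 : mt 0 6 = mt 6 0 := t01 _ _
  have e3 : mt 2 4 = mt 4 2 := t01 _ _
  simp only [C2, ev, mono, Fin.prod_univ_two, LinearMap.add_apply, LinearMap.smul_apply,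
    LinearMap.proj_apply, smul_eq_mul]
  obtain rfl : j = 6 - i := by omega
  have hi : i ≤ 6 := by omega
  interval_cases i <;> simp [e1, e3] <;> (try ring_nf) <;> exact to0 (by decide) _

theorem lam2 : ∃ μ : ℝ, 0 < μ ∧ ∀ φ ∈ SS 2 6, Lam φ = μ * C2 4 (1 / 2) φ := by
  have key := fun φ (hφ : φ ∈ SS 2 6) => (span_eq (C2 _ _) (fun d hd => by
    have : d = ![d 0, d 1] := by
      ext i
      fin_cases i <;> rfl
    rw [this]
    exact gen2 _ _ (by simpa [Fin.sum_univ_two] using hd)) hφ).2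
  have l := SS_lf ![3 / 5, 4 / 5]
  have l2 := SS_mul l l
  have h1 := key _ (SS_mul (j := 2) (k := 4) l2 (SS_mul (j := 2) (k := 2) l2 l2))
  have h2 := key _ (SS_mul (j := 2) (k := 4) (SS_sq 2)
    (SS_mul (j := 2) (k := 2) (SS_sq 2) (SS_sq 2)))
  rw [show Lam _ = mt 6 0 by
    rw [mt, ← Lam_mat !![3 / 5, 4 / 5; -4 / 5, 3 / 5] (fun x => by
      simp [Fin.sum_univ_two, Matrix.mulVec, dotProduct]
      ring) (mono _)]
    congr 1
    ext n
    simp [mono, Fin.prod_univ_two, Matrix.mulVec, dotProduct, Fin.sum_univ_two]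
    ring] at h1
  rw [Lam_congr (ψ := fun _ => 1) fun n hn => by
    have : ∑ i, (n i : ℂ) ^ 2 = 1 := by
      have := EuclideanSpace.real_norm_sq_eq n
      rw [hn, one_pow] at this
      exact_mod_cast this.symm
    simp only [Pi.mul_apply, this, mul_one]] at h2
  simp [C2, ev, Fin.sum_univ_two] at h1
  simp only [Lam, integral_const, MeasurableSet.univ, measureReal_restrict_apply, univ_inter,
    Complex.real_smul, mul_one] at h2
  generalize hV : volume.real (closedBall (0 : Eu 2) 1) = V at h2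
  simp [C2, ev, Fin.sum_univ_two] at h2
  have a2 : mt 6 0 = 5 * mt 4 2 := by linear_combination (625 / 432) * h1
  refine ⟨V / 16, ?_, fun φ hφ => ?_⟩
  · rw [← hV]
    exact div_pos (ENNReal.toReal_pos (measure_closedBall_pos _ _ one_pos).ne'
      measure_closedBall_lt_top.ne) (by norm_num)
  · have a1 : mt 4 2 = V / 16 := by linear_combination -h2 / 16 - a2 / 8
    rw [key φ hφ, a2, a1]
    simp only [C2, LinearMap.add_apply, LinearMap.smul_apply, smul_eq_mul]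
    push_cast
    ring

end Pool.Agent.H.MP_f6b738_gt
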