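import Pool.Agent.H.MP_f6b738_gt.C
import Pool.Agent.H.MP_f6b738_gt.D

namespace Pool.Agent.H.MP_f6b738_gt

open Set Metric MeasureTheory Pointwise Complex
open scoped RealInnerProductSpace NNReal

noncomputable abbrev ee {m : ℕ} (i : Fin m) : Eu m := EuclideanSpace.single i 1

noncomputable def Mx {m : ℕ} (α β : Eu m →L[ℝ] ℂ) (n : Eu m) (i j : Fin m) : ℝ :=
  (M3 α β n (ee j) (ee i)).re + (M6 α β n (ee j) (ee i)).re / 5

theorem Mx_cont {m : ℕ} (α β : Eu m →L[ℝ] ℂ) (i j : Fin m) : Continuous fun n => Mx α β n i j := by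
  unfold Mx M3 M6
  fun_prop

theorem det_eq {m : ℕ} (α β : Eu m →L[ℝ] ℂ) (c : ℝ) (n : Eu m) :
    (c • ContinuousLinearMap.id ℝ (Eu m) + Dm (NN α β) n).det =
      (c • (1 : Matrix (Fin m) (Fin m) ℝ) + Matrix.of (Mx α β n)).det := by
  rw [ContinuousLinearMap.det, ← LinearMap.det_toMatrix (EuclideanSpace.basisFun (Fin m) ℝ).toBasis]
  congr 1
  ext i j
  simp [LinearMap.toMatrix_apply, Mx, ← Dm_inner, Matrix.one_apply, EuclideanSpace.inner_single_right,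
    Pi.single_apply]

theorem Lam_mul {m : ℕ} (φ : Eu m → ℝ) (c : ℝ) : Lam (fun n => φ n * c) = Lam φ * c :=
  integral_mul_const _ _

noncomputable def ph3 (α β : Eu 3 →L[ℝ] ℂ) (n : Eu 3) : ℝ :=
  3 + 2 * (Mx α β n 0 0 + Mx α β n 1 1 + Mx α β n 2 2) +
    (Mx α β n 0 0 * Mx α β n 1 1 - Mx α β n 0 1 * Mx α β n 1 0 +
      (Mx α β n 0 0 * Mx α β n 2 2 - Mx α β n 0 2 * Mx α β n 2 0) +
      (Mx α β n 1 1 * Mx α β n 2 2 - Mx α β n 1 2 * Mx α β n 2 1))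

noncomputable def ph2 (α β : Eu 2 →L[ℝ] ℂ) (n : Eu 2) : ℝ :=
  1 + (Mx α β n 0 0 + Mx α β n 1 1) + (Mx α β n 0 0 * Mx α β n 1 1 - Mx α β n 0 1 * Mx α β n 1 0)

theorem ph3_cont (α β : Eu 3 →L[ℝ] ℂ) : Continuous (ph3 α β) := by
  have := Mx_cont α β
  unfold ph3
  fun_prop

theorem ph2_cont (α β : Eu 2 →L[ℝ] ℂ) : Continuous (ph2 α β) := by
  have := Mx_cont α β
  unfold ph2
  fun_prop

theorem st3 (α β : Eu 3 →L[ℝ] ℂ) : ∃ c : ℕ → ℝ, c 1 = Lam (ph3 α β) ∧ ∀ r : ℝ,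
    Lam (fun n => ((1 + r) • ContinuousLinearMap.id ℝ (Eu 3) + Dm (NN α β) n).det) =
      ∑ j ∈ Finset.range 4, c j * r ^ j := by
  have := Mx_cont α β
  have h1 := ph3_cont α β
  let f0 : Eu 3 → ℝ := fun n => (1 + Matrix.of (Mx α β n)).det
  let f2 : Eu 3 → ℝ := fun n => 3 + (Mx α β n 0 0 + Mx α β n 1 1 + Mx α β n 2 2)
  have h0 : Continuous f0 := by
    simp only [f0, Matrix.det_fin_three, Matrix.add_apply, Matrix.of_apply]
    fun_prop
  have h2 : Continuous f2 := by fun_prop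
  refine ⟨fun j => if j = 0 then Lam f0 else if j = 1 then Lam (ph3 α β) else if j = 2 then Lam f2
    else Lam fun _ : Eu 3 => (1 : ℝ), rfl, fun r => ?_⟩
  simp only [Finset.sum_range_succ, Finset.range_zero, Finset.sum_empty, zero_add, if_true,
    OfNat.ofNat_ne_zero, one_ne_zero, if_false, OfNat.ofNat_ne_one, Nat.reduceEqDiff, ← Lam_mul]
  rw [← Lam_add (by fun_prop) (by fun_prop), ← Lam_add (by fun_prop) (by fun_prop),
    ← Lam_add (by fun_prop) (by fun_prop)]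
  congr 1
  ext n
  simp [det_eq, f0, f2, ph3, Matrix.det_fin_three]
  ring

theorem st2 (α β : Eu 2 →L[ℝ] ℂ) : ∃ c : ℕ → ℝ, c 0 = Lam (ph2 α β) ∧ ∀ r : ℝ,
    Lam (fun n => ((1 + r) • ContinuousLinearMap.id ℝ (Eu 2) + Dm (NN α β) n).det) =
      ∑ j ∈ Finset.range 3, c j * r ^ j := by
  have := Mx_cont α β
  have h1 := ph2_cont α β
  let f2 : Eu 2 → ℝ := fun n => 2 + (Mx α β n 0 0 + Mx α β n 1 1)
  have h2 : Continuous f2 := by fun_prop
  refine ⟨fun j => if j = 0 then Lam (ph2 α β) else if j = 1 then Lam f2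
    else Lam fun _ : Eu 2 => (1 : ℝ), rfl, fun r => ?_⟩
  simp only [Finset.sum_range_succ, Finset.range_zero, Finset.sum_empty, zero_add, if_true,
    OfNat.ofNat_ne_zero, one_ne_zero, if_false, OfNat.ofNat_ne_one, ← Lam_mul]
  rw [← Lam_add (by fun_prop) (by fun_prop), ← Lam_add (by fun_prop) (by fun_prop)]
  congr 1
  ext n
  simp [det_eq, f2, ph2, Matrix.det_fin_two]
  ring

theorem Mx_neg {m : ℕ} (α β : Eu m →L[ℝ] ℂ) (n : Eu m) (i j : Fin m) : Mx α β (-n) i j =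
    -(M3 α β n (ee j) (ee i)).re + (M6 α β n (ee j) (ee i)).re / 5 := by
  rw [Mx, ← neg_re]
  congr 3 <;> simp only [M3, M6, map_neg, inner_neg_left, ofReal_neg] <;> ring

theorem M3_I {m : ℕ} (α β : Eu m →L[ℝ] ℂ) (n v w : Eu m) :
    (M3 α ((-I) • β) n v w).re = (M3 α β n v w).im := by
  rw [show M3 α ((-I) • β) n v w = -I * M3 α β n v w by
    simp only [M3, ContinuousLinearMap.smul_apply, smul_eq_mul]
    ring]
  simp

theorem M6_I {m : ℕ} (α β : Eu m →L[ℝ] ℂ) (n v w : Eu m) :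
    (M6 α ((-I) • β) n v w).re = -(M6 α β n v w).re := by
  rw [show M6 α ((-I) • β) n v w = I ^ 2 * M6 α β n v w by
    simp only [M6, ContinuousLinearMap.smul_apply, smul_eq_mul]
    ring]
  simp

noncomputable def RR {m : ℕ} (c1 c2 c3 c4 : ℂ) (a b : Fin m → ℂ) : Eu m → ℂ :=
  let A := fun n : Eu m => ∑ i, (n i : ℂ) * a i
  let B := fun n : Eu m => ∑ i, (n i : ℂ) * b i
  let r := fun n : Eu m => ∑ i, (n i : ℂ) ^ 2
  (4 * ((∑ i, a i * b i) ^ 2 - (∑ i, a i * a i) * ∑ i, b i * b i)) • (A * A * (r * r)) +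
    (c1 * ∑ i, a i * a i) • (A * A * (B * B * r)) + (c2 * ∑ i, a i * b i) • (A * A * (A * B * r)) +
    (c3 * ∑ i, b i * b i) • (A * A * (A * A * r)) - c4 • (A * A * (A * A * (B * B)))

theorem RR_mem {m : ℕ} (c1 c2 c3 c4 : ℂ) (a b : Fin m → ℂ) : RR c1 c2 c3 c4 a b ∈ SS m 6 := by
  have A := SS_lf a
  have B := SS_lf b
  have r := SS_sq m
  have AA : _ ∈ SS m 2 := SS_mul (j := 1) (k := 1) A A
  have AB : _ ∈ SS m 2 := SS_mul (j := 1) (k := 1) A B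
  have BB : _ ∈ SS m 2 := SS_mul (j := 1) (k := 1) B B
  have p : ∀ φ ψ, φ ∈ SS m 2 → ψ ∈ SS m 2 → _ * (φ * ψ) ∈ SS m 6 := fun φ ψ h h' =>
    SS_mul (j := 2) (k := 4) AA (SS_mul (j := 2) (k := 2) h h')
  exact sub_mem (add_mem (add_mem (add_mem (Submodule.smul_mem _ _ (p _ _ r r))
    (Submodule.smul_mem _ _ (p _ _ BB r))) (Submodule.smul_mem _ _ (p _ _ AB r)))
    (Submodule.smul_mem _ _ (p _ _ AA r))) (Submodule.smul_mem _ _ (p _ _ AA BB))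

theorem SS_cont {m k : ℕ} {φ : Eu m → ℂ} (hφ : φ ∈ SS m k) : Continuous φ := by
  induction hφ using Submodule.span_induction with
  | mem x hx =>
    obtain ⟨d, hd, rfl⟩ := hx
    unfold mono
    fun_prop
  | zero => exact continuous_const
  | add x y _ _ hx hy => exact hx.add hy
  | smul c x _ hx => exact hx.const_smul c

theorem sq_one {m : ℕ} {n : Eu m} (hn : ‖n‖ = 1) : ∑ i, (n i : ℂ) ^ 2 = 1 := by
  have := EuclideanSpace.real_norm_sq_eq n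
  rw [hn, one_pow] at this
  exact_mod_cast this.symm

theorem diff {m : ℕ} [NeZero m] {φ ψ : Eu m → ℝ} (hφ : Continuous φ) (hψ : Continuous ψ)
    {R : Eu m → ℂ} (hR : Continuous R)
    (h : ∀ n, ‖n‖ = 1 → φ n + φ (-n) = ψ n + ψ (-n) + (R n).re * 2) :
    Lam φ = Lam ψ + (Lam R).re := by
  have h1 := Lam_congr h
  rw [Lam_add hφ (by fun_prop), Lam_add (by fun_prop) (by fun_prop), Lam_add hψ (by fun_prop),
    Lam_mul, show Lam (fun n => φ (-n)) = Lam φ from Lam_iso (LinearIsometryEquiv.neg ℝ) φ,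
    show Lam (fun n => ψ (-n)) = Lam ψ from Lam_iso (LinearIsometryEquiv.neg ℝ) ψ,
    show Lam (fun n => (R n).re) = (Lam R).re from reCLM.integral_comp_comm (Lam_int hR)] at h1
  linarith

theorem C3_RR (a b : Fin 3 → ℂ) : C3 10 1 (1 / 4) (RR (58 / 5) (4 / 5) (28 / 5) (126 / 5) a b) =
    84 / 5 * (∑ i, a i * a i) * ((∑ i, a i * b i) ^ 2 - (∑ i, a i * a i) * ∑ i, b i * b i) := by
  simp only [C3, ev, RR, LinearMap.add_apply, LinearMap.smul_apply, LinearMap.proj_apply,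
    smul_eq_mul, Pi.add_apply, Pi.sub_apply, Pi.smul_apply, Pi.mul_apply, Fin.sum_univ_three,
    Matrix.cons_val_zero, Matrix.cons_val_one, Matrix.cons_val]
  push_cast
  ring

theorem eq3 (α β : Eu 3 →L[ℝ] ℂ) (h : (∑ i, α (ee i) * β (ee i)) ^ 2 =
    (∑ i, α (ee i) * α (ee i)) * ∑ i, β (ee i) * β (ee i)) :
    Lam (ph3 α β) = Lam (ph3 α ((-I) • β)) := by
  obtain ⟨μ, hμ⟩ := lam3
  have hm := RR_mem (58 / 5) (4 / 5) (28 / 5) (126 / 5) (fun i => α (ee i)) fun i => β (ee i)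
  rw [diff (ph3_cont α β) (ph3_cont α ((-I) • β)) (SS_cont hm) fun n hn => ?_, hμ _ hm, C3_RR, h]
  · simp
  · have e : M3 α β n (ee 0) (ee 0) * M3 α β n (ee 1) (ee 1) -
        M3 α β n (ee 1) (ee 0) * M3 α β n (ee 0) (ee 1) +
        (M3 α β n (ee 0) (ee 0) * M3 α β n (ee 2) (ee 2) -
        M3 α β n (ee 2) (ee 0) * M3 α β n (ee 0) (ee 2)) +
        (M3 α β n (ee 1) (ee 1) * M3 α β n (ee 2) (ee 2) -
        M3 α β n (ee 2) (ee 1) * M3 α β n (ee 1) (ee 2)) + 4 * (M6 α β n (ee 0) (ee 0) +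
        M6 α β n (ee 1) (ee 1) + M6 α β n (ee 2) (ee 2)) / 5 =
        RR (58 / 5) (4 / 5) (28 / 5) (126 / 5) (fun i => α (ee i)) (fun i => β (ee i)) n := by
      have h1 := sq_one hn
      have hA := lf_eq α n
      have hB := lf_eq β n
      simp only [M3, M6, RR, ← hA, ← hB, Pi.add_apply, Pi.sub_apply, Pi.smul_apply,
        Pi.mul_apply, smul_eq_mul, EuclideanSpace.inner_single_right, h1]
      simp only [Fin.sum_univ_three] at h1 hA hB ⊢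
      simp
      generalize α (ee 0) = a0, α (ee 1) = a1, α (ee 2) = a2, β (ee 0) = b0, β (ee 1) = b1,
        β (ee 2) = b2, (n 0 : ℂ) = x, (n 1 : ℂ) = y, (n 2 : ℂ) = z, α n = A, β n = B at h1 hA hB ⊢
      linear_combination (4 * A ^ 2 * B ^ 2 * (a0 * a0 + a1 * a1 + a2 * a2) +
        16 * A ^ 3 * B * (a0 * b0 + a1 * b1 + a2 * b2) - 2 * A ^ 4 * (b0 * b0 + b1 * b1 + b2 * b2)) * h1 -
        (-6 * A ^ 2 * B * (a0 * b0 + a1 * b1 + a2 * b2) - 4 * A ^ 2 * B ^ 2 * (x * a0 + y * a1 + z * a2) +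
        6 * A ^ 3 * (b0 * b0 + b1 * b1 + b2 * b2) - 16 * A ^ 3 * B * (x * b0 + y * b1 + z * b2) -
        44 / 5 * A ^ 3 * B ^ 2) * hA - (6 * A ^ 2 * B * (a0 * a0 + a1 * a1 + a2 * a2) -
        6 * A ^ 3 * (a0 * b0 + a1 * b1 + a2 * b2) + 2 * A ^ 4 * (x * b0 + y * b1 + z * b2) -
        82 / 5 * A ^ 4 * B) * hB
    rw [← e]
    simp only [ph3, Mx_neg]
    simp only [Mx, M3_I, M6_I, add_re, sub_re, mul_re, div_ofNat_re, re_ofNat, im_ofNat]
    ring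

theorem C2_RR (a b : Fin 2 → ℂ) : C2 4 (1 / 2) (RR (54 / 5) (12 / 5) (24 / 5) (108 / 5) a b) =
    16 / 5 * (∑ i, a i * a i) * ((∑ i, a i * b i) ^ 2 - (∑ i, a i * a i) * ∑ i, b i * b i) := by
  simp only [C2, ev, RR, LinearMap.add_apply, LinearMap.smul_apply, LinearMap.proj_apply,
    smul_eq_mul, Pi.add_apply, Pi.sub_apply, Pi.smul_apply, Pi.mul_apply, Fin.sum_univ_two,
    Matrix.cons_val_zero, Matrix.cons_val_one]
  push_cast
  ring

theorem ne2 (α β : Eu 2 →L[ℝ] ℂ) {ε : ℝ} (hε : 0 < ε) (a0 : α (ee 0) = 1) (a1 : α (ee 1) = 0)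
    (b0 : β (ee 0) = 0) (b1 : β (ee 1) = ε) : Lam (ph2 α β) < Lam (ph2 α ((-I) • β)) := by
  obtain ⟨μ, h0, hμ⟩ := lam2
  have hm := RR_mem (54 / 5) (12 / 5) (24 / 5) (108 / 5) (fun i => α (ee i)) fun i => β (ee i)
  rw [diff (ph2_cont α β) (ph2_cont α ((-I) • β)) (SS_cont hm) fun n hn => ?_, hμ _ hm, C2_RR]
  · simp only [Fin.sum_univ_two, a0, a1, b0, b1]
    rw [show (μ : ℂ) * _ = ((-(16 / 5 * μ * ε ^ 2) : ℝ) : ℂ) by push_cast; ring, ofReal_re]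
    have : 0 < 16 / 5 * μ * ε ^ 2 := by positivity
    linarith
  · have e : M3 α β n (ee 0) (ee 0) * M3 α β n (ee 1) (ee 1) -
        M3 α β n (ee 1) (ee 0) * M3 α β n (ee 0) (ee 1) + 2 * (M6 α β n (ee 0) (ee 0) +
        M6 α β n (ee 1) (ee 1)) / 5 =
        RR (54 / 5) (12 / 5) (24 / 5) (108 / 5) (fun i => α (ee i)) (fun i => β (ee i)) n := by
      have h1 := sq_one hn
      have hA := lf_eq α n
      have hB := lf_eq β n
      simp only [M3, M6, RR, ← hA, ← hB, Pi.add_apply, Pi.sub_apply, Pi.smul_apply,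
        Pi.mul_apply, smul_eq_mul, EuclideanSpace.inner_single_right, h1]
      simp only [Fin.sum_univ_two] at h1 hA hB ⊢
      simp
      generalize α (ee 0) = a0, α (ee 1) = a1, β (ee 0) = b0, β (ee 1) = b1,
        (n 0 : ℂ) = x, (n 1 : ℂ) = y, α n = A, β n = B at h1 hA hB ⊢
      linear_combination (4 * A ^ 2 * B ^ 2 * (a0 * a0 + a1 * a1) +
        16 * A ^ 3 * B * (a0 * b0 + a1 * b1) - 2 * A ^ 4 * (b0 * b0 + b1 * b1)) * h1 -
        (-6 * A ^ 2 * B * (a0 * b0 + a1 * b1) - 4 * A ^ 2 * B ^ 2 * (x * a0 + y * a1) +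
        6 * A ^ 3 * (b0 * b0 + b1 * b1) - 16 * A ^ 3 * B * (x * b0 + y * b1) -
        32 / 5 * A ^ 3 * B ^ 2) * hA - (6 * A ^ 2 * B * (a0 * a0 + a1 * a1) -
        6 * A ^ 3 * (a0 * b0 + a1 * b1) + 2 * A ^ 4 * (x * b0 + y * b1) -
        76 / 5 * A ^ 4 * B) * hB
    rw [← e]
    simp only [ph2, Mx_neg]
    simp only [Mx, M3_I, M6_I, add_re, sub_re, mul_re, div_ofNat_re, re_ofNat, im_ofNat]
    ring

end Pool.Agent.H.MP_f6b738_gt
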