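import Pool.Agent.H.MP_f6b738_gt.F

namespace Pool.Agent.H.MP_f6b738_gt

open Set Metric MeasureTheory Pointwise Complex
open scoped RealInnerProductSpace NNReal

theorem steiner {m : ℕ} [NeZero m] (T : Eu m →ₗᵢ[ℝ] Eu 4) {α β : Eu 4 →L[ℝ] ℂ}
    (H : Sup (hh α β) (NN α β)) {r : ℝ} (hr : 0 ≤ r) :
    (volume (adj T '' body (hh α β) + closedBall 0 r)).toReal =
      Lam fun n => ((1 + r) • ContinuousLinearMap.id ℝ (Eu m) + Dm (NN
        (α.comp T.toContinuousLinearMap) (β.comp T.toContinuousLinearMap)) n).det := by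
  obtain ⟨C, hC, hl⟩ := (H.res T).lip
  rw [H.image T hr]
  simp only [NN_res] at hl ⊢
  exact vol ((NN_smooth _ _).differentiable one_ne_zero) hC hl hr

noncomputable def co (i j : Fin 4) : Eu 4 →L[ℝ] ℂ :=
  ofRealCLM.comp (EuclideanSpace.proj i) + I • ofRealCLM.comp (EuclideanSpace.proj j)

theorem co_apply (i j : Fin 4) (x : Eu 4) : co i j x = x i + I * x j := by simp [co]

theorem gram {u : Eu 4} (hu : ‖u‖ = 1) (e : Eu 3 ≃ₗᵢ[ℝ] (ℝ ∙ u)ᗮ) (k l : Fin 4) :
    ∑ j, ((e (ee j) : Eu 4) k : ℂ) * (e (ee j) : Eu 4) l = (if k = l then 1 else 0) - u k * u l := by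
  set T := (ℝ ∙ u)ᗮ.subtypeₗᵢ.comp e.toLinearIsometry with hT
  have h1 : ∀ (k : Fin 4) j, (e (ee j) : Eu 4) k = adj T (ee k) j := fun k j => by
    have := adj_inner T (ee k) (ee j)
    simpa [EuclideanSpace.inner_single_right, EuclideanSpace.inner_single_left, hT] using this.symm
  have h2 : T (adj T (ee l)) = ee l - u l • u := by
    rw [← Submodule.eq_starProjection_of_mem_of_inner_eq_zero (K := (ℝ ∙ u)ᗮ) (u := ee l)
      (v := T (adj T (ee l))) (e _).2 fun w hw => by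
        have : w = T (e.symm ⟨w, hw⟩) := by simp [hT]
        rw [this, inner_sub_left, T.inner_map_map, adj_inner, sub_self],
      Submodule.starProjection_orthogonal_val, Submodule.starProjection_unit_singleton ℝ hu]
    simp [EuclideanSpace.inner_single_right]
  have h3 := adj_inner T (ee k) (adj T (ee l))
  rw [h2, PiLp.inner_apply] at h3
  simp only [h1]
  have h4 : ∑ j, adj T (ee k) j * adj T (ee l) j = (if k = l then 1 else 0) - u k * u l := by
    simpa [EuclideanSpace.inner_single_left, mul_comm, Pi.single_apply] using h3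
  split_ifs at h4 ⊢ <;> exact_mod_cast h4

theorem gram2 {u : Eu 4} (hu : ‖u‖ = 1) (e : Eu 3 ≃ₗᵢ[ℝ] (ℝ ∙ u)ᗮ) :
    ∑ j, co 0 1 (e (ee j)) * co 0 1 (e (ee j)) = -(co 0 1 u * co 0 1 u) ∧
    ∑ j, co 0 1 (e (ee j)) * co 2 3 (e (ee j)) = -(co 0 1 u * co 2 3 u) ∧
    ∑ j, co 2 3 (e (ee j)) * co 2 3 (e (ee j)) = -(co 2 3 u * co 2 3 u) := by
  have g := gram hu e
  have g00 := g 0 0
  have g01 := g 0 1
  have g02 := g 0 2
  have g03 := g 0 3
  have g11 := g 1 1
  have g12 := g 1 2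
  have g13 := g 1 3
  have g22 := g 2 2
  have g23 := g 2 3
  have g33 := g 3 3
  simp only [co_apply, Fin.sum_univ_three, Fin.reduceEq, if_true,
    if_false] at g00 g01 g02 g03 g11 g12 g13 g22 g23 g33 ⊢
  refine ⟨?_, ?_, ?_⟩
  · linear_combination g00 + 2 * I * g01 + I ^ 2 * g11 + I_sq
  · linear_combination g02 + I * g03 + I * g12 + I ^ 2 * g13
  · linear_combination g22 + 2 * I * g23 + I ^ 2 * g33 + I_sq

noncomputable def T0 : Eu 2 →ₗᵢ[ℝ] Eu 4 :=
  ⟨Matrix.toLpLin 2 2 !![1, 0; 0, 0; 0, 1; 0, 0], fun x => by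
    rw [EuclideanSpace.norm_eq, EuclideanSpace.norm_eq]
    simp [Fin.sum_univ_four, Matrix.mulVec, dotProduct]⟩

theorem main : ∃ K₁ K₂ : Set (Eu 4), IsCompact K₁ ∧ Convex ℝ K₁ ∧ IsCompact K₂ ∧ Convex ℝ K₂ ∧
    (∀ u ∈ sphere (0 : Eu 4) 1, ∃ p q : Polynomial ℝ,
      (∀ ε : ℝ, 0 ≤ ε → p.eval ε =
        (volume ((ℝ ∙ u)ᗮ.starProjection '' K₁ + closedBall 0 ε)).toReal) ∧
      (∀ ε : ℝ, 0 ≤ ε → q.eval ε =
        (volume ((ℝ ∙ u)ᗮ.starProjection '' K₂ + closedBall 0 ε)).toReal) ∧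
      p.coeff 2 = q.coeff 2) ∧ ∃ S : Submodule ℝ (Eu 4), Module.finrank ℝ S = 2 ∧
    ∀ p q : Polynomial ℝ, (∀ ε : ℝ, 0 ≤ ε → p.eval ε =
        (volume (S.starProjection '' K₁ + closedBall 0 ε)).toReal) →
      (∀ ε : ℝ, 0 ≤ ε → q.eval ε = (volume (S.starProjection '' K₂ + closedBall 0 ε)).toReal) →
      p.coeff 2 < q.coeff 2 := by
  obtain ⟨δ1, d1, s1⟩ := small (co 0 1) (co 2 3)
  obtain ⟨δ2, d2, s2⟩ := small (co 0 1) ((-I) • co 2 3)
  have h0 : 0 < min δ1 δ2 / 2 := by positivity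
  have H1 := s1 _ h0 (by linarith [min_le_left δ1 δ2])
  have H2 := s2 _ h0 (by linarith [min_le_right δ1 δ2])
  generalize min δ1 δ2 / 2 = ε at h0 H1 H2
  rw [smul_comm] at H2
  refine ⟨_, _, H1.compact, Sup.convex _, H2.compact, Sup.convex _, fun u hu => ?_,
    T0.toLinearMap.range, ?_, fun p q hp hq => ?_⟩
  · have hu1 : ‖u‖ = 1 := by simpa using hu
    have hu0 : u ≠ 0 := by
      rintro rfl
      simp at hu1
    haveI : Fact (Module.finrank ℝ (Eu 4) = 3 + 1) := ⟨by simp⟩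
    let e := (OrthonormalBasis.fromOrthogonalSpanSingleton (𝕜 := ℝ) 3 hu0).repr.symm
    have hd : Module.finrank ℝ (ℝ ∙ u)ᗮᗮ = 1 := by
      rw [Submodule.orthogonal_orthogonal, finrank_span_singleton hu0]
    haveI : Nontrivial (ℝ ∙ u)ᗮᗮ := Module.nontrivial_of_finrank_pos (R := ℝ) (by omega)
    obtain ⟨c1, e1, hc1⟩ := st3 _ _
    obtain ⟨c2, e2, hc2⟩ := st3 _ _
    obtain ⟨p, hp, hp2⟩ := lift _ e H1.compact c1 fun r hr => (steiner _ H1 hr).trans (hc1 r)
    obtain ⟨q, hq, hq2⟩ := lift _ e H2.compact c2 fun r hr => (steiner _ H2 hr).trans (hc2 r)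
    refine ⟨p, q, hp, hq, ?_⟩
    have h1 := hp2 1 (by norm_num)
    have h2 := hq2 1 (by norm_num)
    rw [hd] at h1 h2
    rw [h1, h2, e1, e2, eq3]
    · rfl
    · obtain ⟨aa, ab, bb⟩ := gram2 hu1 e
      change (∑ i, co 0 1 (e (ee i)) * (ε * co 2 3 (e (ee i)))) ^ 2 =
        (∑ i, co 0 1 (e (ee i)) * co 0 1 (e (ee i))) *
          ∑ i, ε * co 2 3 (e (ee i)) * (ε * co 2 3 (e (ee i)))
      simp only [mul_left_comm _ (ε : ℂ), mul_assoc, ← Finset.mul_sum, aa, ab, bb]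
      ring
  · rw [← T0.equivRange.toLinearEquiv.finrank_eq]
    simp
  · have hd : Module.finrank ℝ T0.toLinearMap.rangeᗮ = 2 := by
      have := T0.toLinearMap.range.finrank_add_finrank_orthogonal
      rw [← T0.equivRange.toLinearEquiv.finrank_eq] at this
      simp only [finrank_euclideanSpace, Fintype.card_fin] at this
      omega
    haveI : Nontrivial T0.toLinearMap.rangeᗮ := Module.nontrivial_of_finrank_pos (R := ℝ) (by omega)
    obtain ⟨c1, e1, hc1⟩ := st2 _ _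
    obtain ⟨c2, e2, hc2⟩ := st2 _ _
    obtain ⟨p', hp', hp2⟩ := lift _ T0.equivRange H1.compact c1 fun r hr =>
      (steiner _ H1 hr).trans (hc1 r)
    obtain ⟨q', hq', hq2⟩ := lift _ T0.equivRange H2.compact c2 fun r hr =>
      (steiner _ H2 hr).trans (hc2 r)
    obtain rfl : p = p' := Polynomial.eq_of_infinite_eval_eq _ _
      ((Ici_infinite (0 : ℝ)).mono fun r hr => (hp r hr).trans (hp' r hr).symm)
    obtain rfl : q = q' := Polynomial.eq_of_infinite_eval_eq _ _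
      ((Ici_infinite (0 : ℝ)).mono fun r hr => (hq r hr).trans (hq' r hr).symm)
    have h1 := hp2 0 (by norm_num)
    have h2 := hq2 0 (by norm_num)
    rw [hd] at h1 h2
    rw [h1, h2, e1, e2]
    refine mul_lt_mul_of_pos_right (ne2 _ _ h0 ?_ ?_ ?_ ?_) ?_
    · change co 0 1 (T0 (ee 0)) = 1
      simp [co_apply, T0]
    · change co 0 1 (T0 (ee 1)) = 0
      simp [co_apply, T0]
    · change ((ε : ℂ) • co 2 3) (T0 (ee 0)) = 0
      simp [co_apply, T0]
    · change ((ε : ℂ) • co 2 3) (T0 (ee 1)) = ε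
      simp [co_apply, T0]
    · simp only [gam, pow_zero, integral_const, MeasurableSet.univ, measureReal_restrict_apply,
        univ_inter, smul_eq_mul, mul_one]
      exact ENNReal.toReal_pos (measure_closedBall_pos _ _ one_pos).ne' measure_closedBall_lt_top.ne

end Pool.Agent.H.MP_f6b738_gt
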